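import Mathlib

set_option autoImplicit false
open Module

namespace Pool.Agent.Lib.LogDer

theorem fg_of_integral_functionals {F V : Type*} [Field F] [CharZero F] [AddCommGroup V] [Module F V]
    [Module.Finite F V] (S : AddSubgroup V)
    (hS : ∀ s ∈ S, s ≠ 0 → ∃ ρ : V →ₗ[F] F, (∀ t ∈ S, ∃ n : ℤ, ρ t = n) ∧ ρ s ≠ 0) : S.FG := by
  classical
  let P : Set (V →ₗ[F] F) := {ρ | ∀ t ∈ S, ∃ n : ℤ, ρ t = n}
  obtain ⟨b, hbP, hspan, hli⟩ := exists_linearIndependent F P
  have hfin : b.Finite := hli.setFinite
  have : Fintype b := hfin.fintype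
  choose n hn using fun (i : b) (t : S) => hbP i.2 t.1 t.2
  let H : S →+ (b → ℤ) :=
    { toFun := fun t i => n i t
      map_zero' := by
        ext i
        have := hn i 0
        simp only [ZeroMemClass.coe_zero, map_zero] at this
        simpa using this.symm
      map_add' := by
        intro x y
        ext i
        have := hn i (x + y)
        simp only [AddSubgroup.coe_add, map_add, hn] at this
        simp only [Pi.add_apply]
        exact_mod_cast this.symm }
  have hinj : Function.Injective H := by
    rw [injective_iff_map_eq_zero]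
    intro t ht
    by_contra hne
    have hne' : (t : V) ≠ 0 := by simpa using hne
    obtain ⟨ρ, hρ, hρ'⟩ := hS t t.2 hne'
    have hρP : ρ ∈ Submodule.span F b := by
      rw [hspan]; exact Submodule.subset_span hρ
    apply hρ'
    have hz : ∀ σ ∈ b, σ (t : V) = 0 := by
      intro σ hσ
      have h1 := hn ⟨σ, hσ⟩ t
      have h2 : n ⟨σ, hσ⟩ t = 0 := congrFun ht ⟨σ, hσ⟩
      rw [h2] at h1
      simpa using h1
    refine Submodule.span_induction (p := fun σ _ => σ (t : V) = 0) (fun σ hσ => hz σ hσ) (by simp) ?_ ?_ hρP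
    · intro x y _ _ hx hy; simp [hx, hy]
    · intro a x _ hx; simp [hx]
  -- S is f.g. as it embeds in a noetherian module
  have hN : Module.Finite ℤ S := by
    have : IsNoetherian ℤ (b → ℤ) := inferInstance
    exact Module.Finite.of_injective H.toIntLinearMap hinj
  exact (AddGroup.fg_iff_addSubgroup_fg S).1 (Module.Finite.iff_addGroup_fg.1 hN)

section thmA

variable {F L : Type*} [Field F] [Field L] [Algebra F L]

/-- The logarithmic derivative functional. -/
noncomputable def ell (η : L) : Dual L (Derivation F L L) where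
  toFun D := D η / η
  map_add' := by intros; simp [add_div]
  map_smul' := by intros; simp [mul_div_assoc]

@[simp] lemma ell_apply (η : L) (D : Derivation F L L) : ell (F := F) η D = D η / η := rfl

/-- Functionals on derivations that are closed along `δ`. -/
def closedZ (δ : Derivation F L L) : Submodule F (Dual L (Derivation F L L)) where
  carrier := {ω | ∀ D, δ (ω D) = ω ⁅δ, D⁆ + D (ω δ)}
  add_mem' := by
    intro a b ha hb D
    simp only [Set.mem_ofPred_eq] at ha hb
    simp only [LinearMap.add_apply, map_add, ha, hb]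
    ring
  zero_mem' := by intro D; simp
  smul_mem' := by
    intro c a ha D
    simp only [Set.mem_ofPred_eq] at ha
    simp only [LinearMap.smul_apply, Derivation.map_smul, ha, smul_add]

lemma ell_mem (δ : Derivation F L L) {η : L} (hη : η ≠ 0) : ell (F := F) η ∈ closedZ δ := by
  intro D
  simp only [ell, LinearMap.coe_mk, AddHom.coe_mk, Derivation.leibniz_div, Derivation.commutator_apply, smul_eq_mul]
  field_simp
  ring

/-- parallel functionals -/
def parU (δ : Derivation F L L) : Submodule F (Dual L (Derivation F L L)) where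
  carrier := {ω | ∀ D, δ (ω D) = ω ⁅δ, D⁆}
  add_mem' := by
    intro a b ha hb D
    simp only [Set.mem_ofPred_eq] at ha hb
    simp only [LinearMap.add_apply, map_add, ha, hb]
  zero_mem' := by intro D; simp
  smul_mem' := by
    intro c a ha D
    simp only [Set.mem_ofPred_eq] at ha
    simp only [LinearMap.smul_apply, Derivation.map_smul, ha]

lemma parU_fg [FiniteDimensional L (Derivation F L L)] (δ : Derivation F L L)
    (hδ : ∀ x : L, δ x = 0 → x ∈ Set.range (algebraMap F L)) :
    (parU δ).FG := by
  obtain ⟨b, hbU, hspan, hli⟩ := exists_linearIndependent L (parU δ : Set (Dual L (Derivation F L L)))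
  have hfin : b.Finite := hli.setFinite
  refine Submodule.fg_def.2 ⟨b, hfin, ?_⟩
  apply le_antisymm
  · exact Submodule.span_le.2 hbU
  · intro ω hω
    have h1 : ω ∈ Submodule.span L b := by
      rw [hspan]; exact Submodule.subset_span hω
    have : Fintype b := hfin.fintype
    have h1' : ω ∈ Submodule.span L (Set.range (Subtype.val : b → Dual L (Derivation F L L))) := by
      simpa using h1
    obtain ⟨g, hg⟩ := (Submodule.mem_span_range_iff_exists_fun L).1 h1'
    have key : ∀ D, ∑ i : b, δ (g i) * (i : Dual L (Derivation F L L)) D = 0 := by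
      intro D
      have e1 : δ (ω D) = ω ⁅δ, D⁆ := hω D
      rw [← hg] at e1
      simp only [LinearMap.coe_sum, Finset.sum_apply, LinearMap.smul_apply, smul_eq_mul, map_sum,
        Derivation.leibniz] at e1
      have e2 : ∀ i : b, δ ((i : Dual L (Derivation F L L)) D) = (i : Dual L (Derivation F L L)) ⁅δ, D⁆ :=
        fun i => hbU i.2 D
      rw [Finset.sum_add_distrib] at e1
      simp only [e2] at e1
      have e3 : ∑ x : b, g x * (x : Dual L (Derivation F L L)) ⁅δ, D⁆ + ∑ x : b, (x : Dual L (Derivation F L L)) D * δ (g x)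
        = ∑ x : b, g x * (x : Dual L (Derivation F L L)) ⁅δ, D⁆ := e1
      have e4 := add_eq_left.1 e3
      rw [← e4]
      exact Finset.sum_congr rfl fun i _ => mul_comm _ _
    have key2 : ∑ i : b, δ (g i) • (i : Dual L (Derivation F L L)) = 0 := by
      ext1 D
      simpa using key D
    have key3 : ∀ i, δ (g i) = 0 := by
      exact Fintype.linearIndependent_iff.1 hli (fun i => δ (g i)) key2
    rw [← hg]
    refine Submodule.sum_mem _ fun i _ => ?_
    obtain ⟨c, hc⟩ := hδ _ (key3 i)
    rw [← hc, algebraMap_smul]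
    exact Submodule.smul_mem _ _ (Submodule.subset_span i.2)

/-- Closed functionals whose value at `δ` lies in `W`. -/
def VW (δ : Derivation F L L) (W : Submodule F L) : Submodule F (Dual L (Derivation F L L)) where
  carrier := {ω | ω ∈ closedZ δ ∧ ω δ ∈ W}
  add_mem' := by
    rintro a b ⟨ha, ha'⟩ ⟨hb, hb'⟩
    exact ⟨add_mem ha hb, by simpa using add_mem ha' hb'⟩
  zero_mem' := ⟨zero_mem _, by simp⟩
  smul_mem' := by
    rintro c a ⟨ha, ha'⟩
    exact ⟨Submodule.smul_mem _ _ ha, by simpa using Submodule.smul_mem _ _ ha'⟩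

lemma VW_fg [FiniteDimensional L (Derivation F L L)] (δ : Derivation F L L)
    (hδ : ∀ x : L, δ x = 0 → x ∈ Set.range (algebraMap F L)) (W : Submodule F L) (hW : W.FG) :
    (VW δ W).FG := by
  let ev : Dual L (Derivation F L L) →ₗ[F] L :=
    { toFun := fun ω => ω δ
      map_add' := by intros; simp
      map_smul' := by intros; simp }
  apply Submodule.fg_of_fg_map_of_fg_inf_ker ev
  · have : IsNoetherian F W := by
      have : Module.Finite F W := Module.Finite.iff_fg.2 hW
      infer_instance
    have hle : Submodule.map ev (VW δ W) ≤ W := by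
      rintro _ ⟨ω, ⟨-, h⟩, rfl⟩
      exact h
    have h2 : Submodule.map ev (VW δ W) = Submodule.map W.subtype (Submodule.comap W.subtype (Submodule.map ev (VW δ W))) := by
      rw [Submodule.map_comap_subtype]
      exact (inf_eq_right.2 hle).symm
    rw [h2]
    exact (IsNoetherian.noetherian _).map _
  · have : IsNoetherian F (parU δ) := by
      have : Module.Finite F (parU δ) := Module.Finite.iff_fg.2 (parU_fg δ hδ)
      exact isNoetherian_of_isNoetherianRing_of_finite F (parU δ)
    have hle : VW δ W ⊓ LinearMap.ker ev ≤ parU δ := by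
      rintro ω ⟨⟨h1, h2⟩, h3⟩ D
      have h3' : ω δ = 0 := h3
      have := h1 D
      rw [h3'] at this
      simpa using this
    have h2 : VW δ W ⊓ LinearMap.ker ev = Submodule.map (parU δ).subtype (Submodule.comap (parU δ).subtype (VW δ W ⊓ LinearMap.ker ev)) := by
      rw [Submodule.map_comap_subtype]
      exact (inf_eq_right.2 hle).symm
    rw [h2]
    exact (IsNoetherian.noetherian _).map _

/-- The additive subgroup of logarithmic derivatives lying in `W`. -/
def dlogW (δ : Derivation F L L) (W : Submodule F L) : AddSubgroup L where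
  carrier := {x | x ∈ W ∧ ∃ η : L, η ≠ 0 ∧ δ η / η = x}
  add_mem' := by
    rintro a b ⟨ha, η, hη, rfl⟩ ⟨hb, η', hη', rfl⟩
    refine ⟨add_mem ha hb, η * η', mul_ne_zero hη hη', ?_⟩
    simp only [Derivation.leibniz, smul_eq_mul]
    field_simp
    ring
  zero_mem' := ⟨zero_mem _, 1, one_ne_zero, by simp⟩
  neg_mem' := by
    rintro a ⟨ha, η, hη, rfl⟩
    refine ⟨neg_mem ha, η⁻¹, inv_ne_zero hη, ?_⟩
    simp only [Derivation.leibniz_inv, smul_eq_mul]
    field_simp

lemma ell_mul {a b : L} (ha : a ≠ 0) (hb : b ≠ 0) : ell (F := F) (a * b) = ell a + ell b := by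
  ext1 D
  simp only [ell_apply, LinearMap.add_apply, Derivation.leibniz, smul_eq_mul]
  field_simp
  ring

lemma ell_inv {a : L} (ha : a ≠ 0) : ell (F := F) (a⁻¹) = - ell a := by
  ext1 D
  simp only [ell_apply, LinearMap.neg_apply, Derivation.leibniz_inv, smul_eq_mul]
  field_simp

lemma derivation_eq_zero_of_isAlgebraic [CharZero F] (D : Derivation F L L) {x : L} (hx : IsAlgebraic F x) :
    D x = 0 := by
  have h0 : minpoly F x ≠ 0 := minpoly.ne_zero hx.isIntegral
  have h1 : Polynomial.aeval x (minpoly F x) = 0 := minpoly.aeval F x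
  have h2 : Polynomial.aeval x (Polynomial.derivative (minpoly F x)) ≠ 0 := by
    have hsep : (minpoly F x).Separable := (minpoly.irreducible hx.isIntegral).separable
    exact hsep.aeval_derivative_ne_zero h1
  have h3 : D (Polynomial.aeval x (minpoly F x)) = Polynomial.aeval x (Polynomial.derivative (minpoly F x)) • D x := by
    rw [Derivation.map_aeval]
  rw [h1, map_zero] at h3
  exact (smul_eq_zero.1 h3.symm).resolve_left h2

/-- Property C: existence of residue functionals detecting transcendental elements. -/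
def ResProp (F L : Type*) [Field F] [Field L] [Algebra F L] : Prop :=
  ∀ ξ : L, Transcendental F ξ → ∃ (D : Derivation F L L) (lam : L →ₗ[F] F),
    (∀ η : L, η ≠ 0 → ∃ n : ℤ, lam (D η / η) = (n : F)) ∧ lam (D ξ / ξ) ≠ 0

theorem dlogW_fg [CharZero F] [FiniteDimensional L (Derivation F L L)] (hC : ResProp F L) (δ : Derivation F L L)
    (hδ : ∀ x : L, δ x = 0 → x ∈ Set.range (algebraMap F L)) (W : Submodule F L) (hW : W.FG) :
    (dlogW δ W).FG := by
  classical
  have hVfin : Module.Finite F (VW δ W) := Module.Finite.iff_fg.2 (VW_fg δ hδ W hW)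
  let S : AddSubgroup (VW δ W) :=
    { carrier := {v | ∃ η : L, η ≠ 0 ∧ (v : Dual L (Derivation F L L)) = ell η}
      add_mem' := by
        rintro a b ⟨η, hη, h⟩ ⟨η', hη', h'⟩
        exact ⟨η * η', mul_ne_zero hη hη', by rw [ell_mul hη hη', ← h, ← h']; rfl⟩
      zero_mem' := ⟨1, one_ne_zero, by ext1 D; simp⟩
      neg_mem' := by
        rintro a ⟨η, hη, h⟩
        exact ⟨η⁻¹, inv_ne_zero hη, by rw [ell_inv hη, ← h]; rfl⟩ }
  have hS : S.FG := by
    refine fg_of_integral_functionals (F := F) S ?_
    rintro s ⟨η, hη, hs⟩ hs0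
    have htr : Transcendental F η := by
      intro halg
      have h1 : ∀ D : Derivation F L L, D η = 0 := fun D => derivation_eq_zero_of_isAlgebraic D halg
      apply hs0
      apply Subtype.ext
      rw [hs]
      ext1 D
      simp [h1 D]
    obtain ⟨D, lam, h1, h2⟩ := hC η htr
    refine ⟨{ toFun := fun ω => lam ((ω : Dual L (Derivation F L L)) D)
              map_add' := by intros; simp
              map_smul' := by intros; simp }, ?_, ?_⟩
    · rintro t ⟨η', hη', ht⟩
      obtain ⟨n, hn⟩ := h1 η' hη'
      refine ⟨n, ?_⟩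
      simp only [LinearMap.coe_mk, AddHom.coe_mk, ht, ell_apply, hn]
    · simp only [LinearMap.coe_mk, AddHom.coe_mk, hs, ell_apply]
      exact h2
  let ev : VW δ W →+ L :=
    { toFun := fun ω => (ω : Dual L (Derivation F L L)) δ
      map_zero' := by simp
      map_add' := by intros; simp }
  have hmap : dlogW δ W = S.map ev := by
    ext x
    constructor
    · rintro ⟨hx, η, hη, rfl⟩
      exact ⟨⟨ell η, ell_mem δ hη, hx⟩, ⟨η, hη, rfl⟩, rfl⟩
    · rintro ⟨v, ⟨η, hη, hv⟩, rfl⟩
      refine ⟨v.2.2, η, hη, ?_⟩
      change _ = (v : Dual L (Derivation F L L)) δ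
      rw [hv]; rfl
  rw [hmap]
  obtain ⟨T, hT⟩ := hS
  exact ⟨T.image ev, by rw [Finset.coe_image, ← AddMonoidHom.map_closure, hT]⟩

end thmA

section det

variable {F M : Type*} [CommRing F] [Field M] [Algebra F M] {ι : Type*} [Fintype ι] [DecidableEq ι]

omit [Fintype ι] in
lemma leibniz_prod' (D : Derivation F M M) (s : Finset ι) (f : ι → M) :
    D (∏ i ∈ s, f i) = ∑ i ∈ s, (∏ j ∈ s.erase i, f j) * D (f i) := by
  induction s using Finset.induction_on with
  | empty => simp
  | insert a s ha ih =>
    rw [Finset.prod_insert ha, Derivation.leibniz, Finset.sum_insert ha, Finset.erase_insert ha, ih]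
    simp only [smul_eq_mul]
    rw [add_comm, Finset.mul_sum]
    congr 1
    refine Finset.sum_congr rfl fun i hi => ?_
    have hne : i ≠ a := fun h => ha (h ▸ hi)
    rw [Finset.erase_insert_of_ne hne.symm, Finset.prod_insert (by simp [ha])]
    ring

/-- Jacobi's formula for derivations. -/
lemma derivation_det (D : Derivation F M M) (A : Matrix ι ι M) :
    D A.det = (A.adjugate * A.map D).trace := by
  classical
  have h1 : D A.det = ∑ j : ι, (A.updateCol j (fun i => D (A i j))).det := by
    simp only [Matrix.det_apply]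
    rw [map_sum, Finset.sum_comm]
    refine Finset.sum_congr rfl fun σ _ => ?_
    have : D (Equiv.Perm.sign σ • ∏ i, A (σ i) i) = Equiv.Perm.sign σ • D (∏ i, A (σ i) i) := by
      rcases Int.units_eq_one_or (Equiv.Perm.sign σ) with h | h <;> simp [h]
    rw [this, ← Finset.smul_sum]
    congr 1
    rw [leibniz_prod']
    refine Finset.sum_congr rfl fun j _ => ?_
    rw [← Finset.mul_prod_erase Finset.univ _ (Finset.mem_univ j), mul_comm]
    congr 1
    · simp
    · refine Finset.prod_congr rfl fun i hi => ?_
      rw [Matrix.updateCol_ne (Finset.ne_of_mem_erase hi)]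
  rw [h1, Matrix.trace]
  refine Finset.sum_congr rfl fun j _ => ?_
  rw [← Matrix.cramer_apply]
  simp only [Matrix.diag_apply, Matrix.mul_apply, Matrix.map_apply, Matrix.cramer_eq_adjugate_mulVec, Matrix.mulVec, dotProduct]

end det

section norm

variable {F M L : Type*} [CommRing F] [Field M] [Field L] [Algebra F M] [Algebra F L] [Algebra M L]
  [FiniteDimensional M L]

lemma trace_dlog (D : Derivation F L L) (D₀ : Derivation F M M)
    (hD : ∀ m : M, D (algebraMap M L m) = algebraMap M L (D₀ m)) {η : L} (hη : η ≠ 0) :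
    Algebra.trace M L (D η / η) = D₀ (Algebra.norm M η) / Algebra.norm M η := by
  classical
  let b := Module.finBasis M L
  let ι := Fin (Module.finrank M L)
  -- matrix of multiplication
  let A : L → Matrix ι ι M := Algebra.leftMulMatrix b
  let Γ : Matrix ι ι M := fun i j => b.repr (D (b j)) i
  have hAmul : ∀ x y, A (x * y) = A x * A y := fun x y => map_mul _ _ _
  have hA : ∀ (x : L) (i j : ι), A x i j = b.repr (x * b j) i :=
    fun x i j => Algebra.leftMulMatrix_eq_repr_mul b x i j
  have hcol : ∀ (x : L) (j : ι), x * b j = ∑ i, A x i j • b i := by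
    intro x j
    simp only [hA]
    exact (b.sum_repr _).symm
  have hΓ : ∀ j : ι, D (b j) = ∑ i, Γ i j • b i := by
    intro j
    exact (b.sum_repr _).symm
  have hDs : ∀ (m : M) (x : L), D (m • x) = m • D x + D₀ m • x := by
    intro m x
    rw [Algebra.smul_def, Derivation.leibniz, hD]
    simp only [Algebra.smul_def, Algebra.algebraMap_self, RingHom.id_apply]
    ring
  have key : A (D η) + A η * Γ = (A η).map D₀ + Γ * A η := by
    ext i j
    simp only [Matrix.add_apply, Matrix.mul_apply, Matrix.map_apply]
    have e1 : A (D η) i j + ∑ k, A η i k * Γ k j = b.repr (D (η * b j)) i := by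
      have : D (η * b j) = ∑ k, Γ k j • (η * b k) + D η * b j := by
        rw [Derivation.leibniz, hΓ]
        simp only [smul_eq_mul, Finset.mul_sum, mul_smul_comm, mul_comm (b j)]
      rw [this, map_add, Finsupp.add_apply, ← hA, map_sum, Finsupp.finsetSum_apply, add_comm]
      congr 1
      refine Finset.sum_congr rfl fun k _ => ?_
      rw [map_smul, Finsupp.smul_apply, ← hA, smul_eq_mul, mul_comm]
    have e2 : D₀ (A η i j) + ∑ k, Γ i k * A η k j = b.repr (D (η * b j)) i := by
      rw [hcol η j, map_sum, map_sum, Finsupp.finsetSum_apply]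
      simp only [hDs, map_add, map_smul, Finsupp.add_apply, Finsupp.smul_apply, smul_eq_mul,
        Finset.sum_add_distrib]
      rw [add_comm]
      congr 1
      · exact Finset.sum_congr rfl fun k _ => mul_comm _ _
      · rw [Finset.sum_eq_single i]
        · simp
        · intro k _ hk
          simp [Finsupp.single_eq_of_ne hk.symm]
        · simp
    rw [e1, e2]
  have hdet : Algebra.norm M η = (A η).det := Algebra.norm_eq_matrix_det b η
  have htr : ∀ x, Algebra.trace M L x = (A x).trace := fun x => Algebra.trace_eq_matrix_trace b x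
  have hN : Algebra.norm M η ≠ 0 := Algebra.norm_ne_zero_iff.2 hη
  have hinv : A η * A η⁻¹ = 1 := by rw [← hAmul, mul_inv_cancel₀ hη]; exact map_one _
  have hinv' : A η⁻¹ * A η = 1 := by rw [← hAmul, inv_mul_cancel₀ hη]; exact map_one _
  rw [htr, div_eq_mul_inv, hAmul, hdet, derivation_det]
  have hadj : (A η).adjugate = (A η).det • A η⁻¹ := by
    have := Matrix.adjugate_mul (A η)
    calc (A η).adjugate = (A η).adjugate * (A η * A η⁻¹) := by rw [hinv, mul_one]
    _ = ((A η).det • 1) * A η⁻¹ := by rw [← mul_assoc, this]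
    _ = (A η).det • A η⁻¹ := by rw [smul_mul_assoc, one_mul]
  have key2 : A (D η) = (A η).map D₀ + Γ * A η - A η * Γ := by rw [← key]; abel
  rw [hadj, key2, sub_mul, add_mul, Matrix.trace_sub, Matrix.trace_add, smul_mul_assoc, Matrix.trace_smul]
  have e1 : (Γ * A η * A η⁻¹).trace = Γ.trace := by rw [mul_assoc, hinv, mul_one]
  have e2 : (A η * Γ * A η⁻¹).trace = Γ.trace := by
    rw [Matrix.trace_mul_comm, ← mul_assoc, hinv', one_mul]
  rw [e1, e2, add_sub_cancel_right, smul_eq_mul, Matrix.trace_mul_comm, mul_div_cancel_left₀ _ (hdet ▸ hN)]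

end norm

section etale

variable (F P L : Type*) [CommRing F] [CommRing P] [CommRing L] [Algebra F P] [Algebra P L] [Algebra F L]
  [IsScalarTower F P L] [Algebra.FormallyEtale P L]

open TensorProduct in
/-- Extension of a derivation along a formally etale map. -/
lemma exists_extend (θ : Derivation F P P) : ∃ D : Derivation F L L,
    ∀ p : P, D (algebraMap P L p) = algebraMap P L (θ p) := by
  let e := KaehlerDifferential.tensorKaehlerEquivOfFormallyEtale F P L
  let θ' : Derivation F P L := (Algebra.linearMap P L).compDer θ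
  let f : L ⊗[P] Ω[P⁄F] →ₗ[L] L := θ'.liftKaehlerDifferential.liftBaseChange L
  refine ⟨(f ∘ₗ e.symm.toLinearMap).compDer (KaehlerDifferential.D F L), fun p => ?_⟩
  have h1 := KaehlerDifferential.tensorKaehlerEquivOfFormallyEtale_symm_D_algebraMap F P L p
  have h2 : ((f ∘ₗ e.symm.toLinearMap).compDer (KaehlerDifferential.D F L)) (algebraMap P L p)
    = f (e.symm (KaehlerDifferential.D F L (algebraMap P L p))) := rfl
  rw [h2, h1]
  simp [f, θ']

end etale

section frac

variable {F P M : Type*} [Field F] [CommRing P] [IsDomain P] [WfDvdMonoid P] [Algebra F P] [Field M] [Algebra P M]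
  [IsFractionRing P M] [Algebra F M] [IsScalarTower F P M]

/-- The `F`-subspace of fractions vanishing along a prime. -/
def vanish (X : P) (hX : Prime X) : Submodule F M where
  carrier := {x | ∃ a g : P, ¬ X ∣ g ∧ X ∣ a ∧ x = algebraMap P M a / algebraMap P M g}
  add_mem' := by
    rintro _ _ ⟨a, g, hg, ha, rfl⟩ ⟨a', g', hg', ha', rfl⟩
    have h0 : algebraMap P M g ≠ 0 := by
      intro h
      have := (IsFractionRing.injective P M) (h.trans (map_zero _).symm)
      exact hg (this ▸ dvd_zero X)
    have h0' : algebraMap P M g' ≠ 0 := by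
      intro h
      have := (IsFractionRing.injective P M) (h.trans (map_zero _).symm)
      exact hg' (this ▸ dvd_zero X)
    refine ⟨a * g' + g * a', g * g', fun h => (hX.dvd_or_dvd h).elim hg hg', dvd_add (ha.mul_right _) (ha'.mul_left _), ?_⟩
    rw [div_add_div _ _ h0 h0']
    simp
  zero_mem' := ⟨0, 1, fun h => hX.not_isUnit (isUnit_of_dvd_one h), dvd_zero _, by simp⟩
  smul_mem' := by
    rintro c _ ⟨a, g, hg, ha, rfl⟩
    refine ⟨c • a, g, hg, ?_, ?_⟩
    · rw [Algebra.smul_def]; exact ha.mul_left _
    · rw [Algebra.smul_def c a, map_mul, ← IsScalarTower.algebraMap_apply, Algebra.smul_def, mul_div_assoc]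

omit [IsDomain P] [WfDvdMonoid P] in
lemma one_notMem_vanish (X : P) (hX : Prime X) : (1 : M) ∉ vanish (F := F) (M := M) X hX := by
  rintro ⟨a, g, hg, ha, h⟩
  have h0 : algebraMap P M g ≠ 0 := by
    intro h
    have := (IsFractionRing.injective P M) (h.trans (map_zero _).symm)
    exact hg (this ▸ dvd_zero X)
  rw [eq_div_iff h0, one_mul] at h
  exact hg ((IsFractionRing.injective P M h) ▸ ha)


omit [IsDomain P] [WfDvdMonoid P] in
/-- Existence of the residue functional on `M`. -/
lemma exists_res (X : P) (hX : Prime X) : ∃ lam : M →ₗ[F] F, lam 1 = 1 ∧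
    ∀ a g : P, ¬ X ∣ g → X ∣ a → lam (algebraMap P M a / algebraMap P M g) = 0 := by
  obtain ⟨f, hf1, hf2⟩ := Submodule.exists_le_ker_of_notMem (one_notMem_vanish (F := F) (M := M) X hX)
  refine ⟨(f 1)⁻¹ • f, by simp [hf1], fun a g hg ha => ?_⟩
  have : algebraMap P M a / algebraMap P M g ∈ vanish (F := F) (M := M) X hX := ⟨a, g, hg, ha, rfl⟩
  have h2 := hf2 this
  rw [LinearMap.mem_ker] at h2
  simp [h2]

omit [IsDomain P] [IsScalarTower F P M] in
lemma res_dlog (X : P) (hX : Prime X) (lam : M →ₗ[F] F) (hlam1 : lam 1 = 1)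
    (hlam : ∀ a g : P, ¬ X ∣ g → X ∣ a → lam (algebraMap P M a / algebraMap P M g) = 0)
    (θ : Derivation F P P) (hθX : θ X = X) (hθ : ∀ q, X ∣ θ q) (a : P) (ha : a ≠ 0) :
    ∃ n : ℤ, lam (algebraMap P M (θ a) / algebraMap P M a) = n := by
  obtain ⟨n, a', ha', rfl⟩ := WfDvdMonoid.max_power_factor' ha hX.not_isUnit
  refine ⟨n, ?_⟩
  have hinj := IsFractionRing.injective P M
  have h0 : algebraMap P M a' ≠ 0 := by
    intro h
    have := hinj (h.trans (map_zero _).symm)
    exact ha' (this ▸ dvd_zero X)
  have hX0 : algebraMap P M X ≠ 0 := by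
    intro h
    have := hinj (h.trans (map_zero _).symm)
    exact hX.ne_zero this
  have e1 : θ (X ^ n * a') = n * (X ^ n * a') + X ^ n * θ a' := by
    rw [Derivation.leibniz, Derivation.leibniz_pow, hθX]
    simp only [smul_eq_mul, nsmul_eq_mul]
    rcases n with _ | n
    · simp
    · simp only [Nat.add_sub_cancel, pow_succ]
      push_cast
      ring
  have e2 : algebraMap P M (θ (X ^ n * a')) / algebraMap P M (X ^ n * a')
      = (n : F) • (1 : M) + algebraMap P M (θ a') / algebraMap P M a' := by
    rw [e1]
    simp only [map_add, map_mul, map_pow, map_natCast, Nat.cast_smul_eq_nsmul, nsmul_eq_mul]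
    field_simp
  rw [e2, map_add, map_smul, hlam1, hlam _ _ ha' (hθ a')]
  simp

/-- The derivation on the fraction field. -/
lemma res_property [CharZero F] {L : Type*} [Field L] [Algebra M L] [Algebra P L] [IsScalarTower P M L]
    [Algebra F L] [IsScalarTower F P L] [IsScalarTower F M L] [FiniteDimensional M L]
    (X : P) (hX : Prime X) (θ : Derivation F P P) (hθX : θ X = X) (hθ : ∀ q, X ∣ θ q) :
    ∃ (D : Derivation F L L) (lam : L →ₗ[F] F),
    (∀ η : L, η ≠ 0 → ∃ n : ℤ, lam (D η / η) = (n : F)) ∧ 
      lam (D (algebraMap P L X) / (algebraMap P L X)) ≠ 0 := by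
  have hCM : CharZero M := charZero_of_injective_algebraMap (algebraMap F M).injective
  have h1 : Algebra.FormallyEtale P M := Algebra.FormallyEtale.of_isLocalization (nonZeroDivisors P)
  have h2 : Algebra.FormallyEtale M L := Algebra.FormallyEtale.of_isSeparable M L
  have h3 : Algebra.FormallyEtale P L := Algebra.FormallyEtale.comp P M L
  obtain ⟨D, hD⟩ := exists_extend F P L θ
  obtain ⟨D₀, hD₀⟩ := exists_extend F P M θ
  have hinj := IsFractionRing.injective P M
  have hcompat : ∀ m : M, D (algebraMap M L m) = algebraMap M L (D₀ m) := by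
    intro m
    obtain ⟨a, g, hg, rfl⟩ := IsFractionRing.div_surjective (A := P) m
    rw [map_div₀, Derivation.leibniz_div, Derivation.leibniz_div]
    simp only [← IsScalarTower.algebraMap_apply, hD, hD₀, smul_eq_mul, map_inv₀, map_sub, map_mul, map_pow]
  obtain ⟨lam, hlam1, hlam⟩ := exists_res (F := F) (M := M) X hX
  refine ⟨D, lam ∘ₗ ((Algebra.trace M L).restrictScalars F), ?_, ?_⟩
  · intro η hη
    have hN : Algebra.norm M η ≠ 0 := Algebra.norm_ne_zero_iff.2 hη
    simp only [LinearMap.comp_apply, LinearMap.restrictScalars_apply]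
    rw [trace_dlog D D₀ hcompat hη]
    obtain ⟨a, g, hg, hag⟩ := IsFractionRing.div_surjective (A := P) (Algebra.norm M η)
    have ha0 : a ≠ 0 := by
      rintro rfl
      rw [map_zero, zero_div] at hag
      exact hN hag.symm
    have hg0 : g ≠ 0 := nonZeroDivisors.ne_zero hg
    have ha0' : algebraMap P M a ≠ 0 := fun h => ha0 (hinj (h.trans (map_zero _).symm))
    have hg0' : algebraMap P M g ≠ 0 := fun h => hg0 (hinj (h.trans (map_zero _).symm))
    obtain ⟨n, hn⟩ := res_dlog X hX lam hlam1 hlam θ hθX hθ a ha0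
    obtain ⟨m, hm⟩ := res_dlog X hX lam hlam1 hlam θ hθX hθ g hg0
    refine ⟨n - m, ?_⟩
    rw [← hag, Derivation.leibniz_div, hD₀, hD₀]
    have : ((algebraMap P M g)⁻¹ ^ 2 • (algebraMap P M g • algebraMap P M (θ a) - algebraMap P M a • algebraMap P M (θ g))) /
      (algebraMap P M a / algebraMap P M g) = algebraMap P M (θ a) / algebraMap P M a - algebraMap P M (θ g) / algebraMap P M g := by
      simp only [smul_eq_mul]
      field_simp
    rw [this, map_sub, hn, hm]
    push_cast
    rfl
  · have hX0 : algebraMap P L X ≠ 0 := by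
      rw [IsScalarTower.algebraMap_apply P M L]
      intro h
      have := hinj (((algebraMap M L).injective (h.trans (map_zero _).symm)).trans (map_zero _).symm)
      exact hX.ne_zero this
    rw [hD, hθX, div_self hX0]
    simp only [LinearMap.comp_apply, LinearMap.restrictScalars_apply]
    have : (1 : L) = algebraMap M L 1 := (map_one _).symm
    rw [this, Algebra.trace_algebraMap]
    have h4 : (finrank M L • (1 : M)) = ((finrank M L : ℕ) : F) • (1 : M) := by
      rw [Nat.cast_smul_eq_nsmul]
    rw [h4, map_smul, hlam1]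
    simp [Module.finrank_pos.ne']

end frac

theorem resProp (F L : Type*) [Field F] [Field L] [Algebra F L] [CharZero F] [Algebra.EssFiniteType F L] :
    ResProp F L := by
  classical
  intro ξ hξ
  have hind : AlgebraicIndepOn F id ({ξ} : Set L) := by
    exact (algebraicIndependent_singleton_iff (i := (⟨ξ, rfl⟩ : ({ξ} : Set L)))).2 hξ
  obtain ⟨B, hξB, hB⟩ := exists_isTranscendenceBasis_superset hind
  let x : B → L := Subtype.val
  let P := MvPolynomial B F
  let _ : Algebra P L := (MvPolynomial.aeval x).toAlgebra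
  have hmap : ∀ p : P, algebraMap P L p = MvPolynomial.aeval x p := fun _ => rfl
  have hinj : Function.Injective (algebraMap P L) := hB.1
  have : FaithfulSMul P L := (faithfulSMul_iff_algebraMap_injective P L).2 hinj
  let _ : Algebra (FractionRing P) L := FractionRing.liftAlgebra P L
  have : IsScalarTower P (FractionRing P) L := FractionRing.isScalarTower_liftAlgebra P L
  have : IsScalarTower F P L := IsScalarTower.of_algebraMap_eq fun c =>
    ((MvPolynomial.aeval x).commutes c).symm
  have : IsScalarTower F (FractionRing P) L := IsScalarTower.of_algebraMap_eq fun c => by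
    rw [IsScalarTower.algebraMap_apply F P (FractionRing P), ← IsScalarTower.algebraMap_apply P (FractionRing P) L,
      ← IsScalarTower.algebraMap_apply F P L]
  have hPL : Algebra.IsAlgebraic P L := by
    have h1 := hB.isAlgebraic
    exact Algebra.IsAlgebraic.of_ringHom_of_comp_eq (S := Algebra.adjoin F (Set.range x)) (B := L)
      (hB.1.aevalEquiv : P →+* Algebra.adjoin F (Set.range x)) (RingHom.id L) hB.1.aevalEquiv.surjective Function.injective_id
        (by ext <;> simp [hmap, x])
  have hML : Algebra.IsAlgebraic (FractionRing P) L := IsFractionRing.comap_isAlgebraic_iff.1 hPL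
  have : Algebra.EssFiniteType (FractionRing P) L := Algebra.EssFiniteType.of_comp F (FractionRing P) L
  have : Module.Finite (FractionRing P) L := Algebra.finite_of_essFiniteType_of_isAlgebraic
  let b : B := ⟨ξ, hξB rfl⟩
  have key := res_property (F := F) (P := P) (M := FractionRing P) (L := L) (MvPolynomial.X b) MvPolynomial.X_prime
    ((MvPolynomial.X b : P) • MvPolynomial.pderiv b)
      (by rw [Derivation.smul_apply, MvPolynomial.pderiv_X_self]; simp) (by intro q; simp)
  have hb : algebraMap P L (MvPolynomial.X b) = ξ := by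
    rw [hmap]; simp [x, b]
  rw [hb] at key
  exact key

section deg

open MvPolynomial

section degVS

variable (σ K M : Type*) [Field K] [Field M] [Algebra (MvPolynomial σ K) M] [IsFractionRing (MvPolynomial σ K) M]

lemma algebraMap_ne_zero' {g : MvPolynomial σ K} (hg : g ≠ 0) : algebraMap (MvPolynomial σ K) M g ≠ 0 := by
  intro h
  exact hg (IsFractionRing.injective (MvPolynomial σ K) M (h.trans (map_zero _).symm))

/-- The valuation ring at infinity: fractions `f / g` with `deg f ≤ deg g`. -/
def degVS : ValuationSubring M where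
  carrier := {x | ∃ f g : MvPolynomial σ K, g ≠ 0 ∧ f.totalDegree ≤ g.totalDegree ∧
    x = algebraMap _ M f / algebraMap _ M g}
  mul_mem' := by
    rintro _ _ ⟨f, g, hg, hd, rfl⟩ ⟨f', g', hg', hd', rfl⟩
    refine ⟨f * f', g * g', mul_ne_zero hg hg', ?_, by rw [map_mul, map_mul, div_mul_div_comm]⟩
    rw [totalDegree_mul_of_isDomain hg hg']
    exact (totalDegree_mul _ _).trans (add_le_add hd hd')
  one_mem' := ⟨1, 1, one_ne_zero, le_rfl, by simp⟩
  add_mem' := by
    rintro _ _ ⟨f, g, hg, hd, rfl⟩ ⟨f', g', hg', hd', rfl⟩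
    refine ⟨f * g' + g * f', g * g', mul_ne_zero hg hg', ?_, ?_⟩
    · rw [totalDegree_mul_of_isDomain hg hg']
      refine (totalDegree_add _ _).trans (max_le ?_ ?_)
      · exact (totalDegree_mul _ _).trans (add_le_add hd le_rfl)
      · exact (totalDegree_mul _ _).trans (add_le_add le_rfl hd')
    · rw [div_add_div _ _ (algebraMap_ne_zero' σ K M hg) (algebraMap_ne_zero' σ K M hg')]
      simp
  zero_mem' := ⟨0, 1, one_ne_zero, by simp, by simp⟩
  neg_mem' := by
    rintro _ ⟨f, g, hg, hd, rfl⟩
    exact ⟨-f, g, hg, by rwa [totalDegree_neg], by rw [map_neg, neg_div]⟩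
  mem_or_inv_mem' := by
    intro x
    obtain ⟨f, g, hg, rfl⟩ := IsFractionRing.div_surjective (A := MvPolynomial σ K) x
    have hg0 : g ≠ 0 := nonZeroDivisors.ne_zero hg
    rcases le_total f.totalDegree g.totalDegree with h | h
    · exact Or.inl ⟨f, g, hg0, h, rfl⟩
    · by_cases hf : f = 0
      · subst hf
        exact Or.inl ⟨0, 1, one_ne_zero, by simp, by simp⟩
      · exact Or.inr ⟨g, f, hf, h, by rw [inv_div]⟩

lemma mem_degVS {x : M} : x ∈ degVS σ K M ↔ ∃ f g : MvPolynomial σ K, g ≠ 0 ∧ f.totalDegree ≤ g.totalDegree ∧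
    x = algebraMap _ M f / algebraMap _ M g := Iff.rfl

variable [Nonempty σ]

/-- The uniformizer. -/
noncomputable def tt : M := (algebraMap (MvPolynomial σ K) M (X (Classical.arbitrary σ)))⁻¹

lemma tt_ne_zero : tt σ K M ≠ 0 := inv_ne_zero (algebraMap_ne_zero' σ K M (X_ne_zero _))

lemma tt_mem : tt σ K M ∈ degVS σ K M :=
  ⟨1, X (Classical.arbitrary σ), X_ne_zero _, by simp, by simp [tt]⟩

/-- polynomials of degree `≤ m` scaled into the ring. -/
lemma tt_pow_mul_mem {m : ℕ} {p : MvPolynomial σ K} (hp : p.totalDegree ≤ m) :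
    tt σ K M ^ m * algebraMap _ M p ∈ degVS σ K M := by
  refine ⟨p, X (Classical.arbitrary σ) ^ m, pow_ne_zero _ (X_ne_zero _), by simpa using hp, ?_⟩
  rw [tt, map_pow, inv_pow, div_eq_mul_inv, mul_comm]

lemma totalDegree_le_of_mem {m : ℕ} {p : MvPolynomial σ K} 
    (hp : tt σ K M ^ m * algebraMap _ M p ∈ degVS σ K M) : p.totalDegree ≤ m := by
  obtain ⟨f, g, hg, hd, h⟩ := hp
  by_cases hp0 : p = 0
  · simp [hp0]
  have hX : algebraMap (MvPolynomial σ K) M (X (Classical.arbitrary σ)) ≠ 0 := algebraMap_ne_zero' σ K M (X_ne_zero _)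
  rw [eq_div_iff (algebraMap_ne_zero' σ K M hg), tt, inv_pow] at h
  have h2 : algebraMap (MvPolynomial σ K) M (p * g) = algebraMap (MvPolynomial σ K) M (X (Classical.arbitrary σ) ^ m * f) := by
    rw [map_mul, map_mul, map_pow, ← h]
    field_simp
  have h3 := IsFractionRing.injective (MvPolynomial σ K) M h2
  have h4 := congrArg totalDegree h3
  rw [totalDegree_mul_of_isDomain hp0 hg] at h4
  have h5 := totalDegree_mul (X (Classical.arbitrary σ) ^ m) f (R := K)
  rw [totalDegree_X_pow] at h5
  omega

/-- Every nonzero element of the valuation ring is a unit times a power of `tt`. -/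
lemma exists_tt_pow {x : M} (hx : x ∈ degVS σ K M) (hx0 : x ≠ 0) :
    ∃ (n : ℕ) (u : M), u ∈ degVS σ K M ∧ u⁻¹ ∈ degVS σ K M ∧ x = tt σ K M ^ n * u := by
  obtain ⟨f, g, hg, hd, rfl⟩ := hx
  have hf : f ≠ 0 := by rintro rfl; simp at hx0
  have hX : algebraMap (MvPolynomial σ K) M (X (Classical.arbitrary σ)) ≠ 0 := algebraMap_ne_zero' σ K M (X_ne_zero _)
  have hf' := algebraMap_ne_zero' σ K M hf
  have hg' := algebraMap_ne_zero' σ K M hg
  refine ⟨g.totalDegree - f.totalDegree,
    algebraMap _ M (X (Classical.arbitrary σ) ^ (g.totalDegree - f.totalDegree) * f) / algebraMap _ M g, ?_, ?_, ?_⟩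
  · refine ⟨_, g, hg, ?_, rfl⟩
    refine (totalDegree_mul _ _).trans ?_
    rw [totalDegree_X_pow]
    omega
  · rw [inv_div]
    refine ⟨g, _, mul_ne_zero (pow_ne_zero _ (X_ne_zero _)) hf, ?_, rfl⟩
    rw [totalDegree_mul_of_isDomain (pow_ne_zero _ (X_ne_zero _)) hf, totalDegree_X_pow]
    omega
  · rw [tt, map_mul, map_pow]
    field_simp
    rw [← mul_pow, one_div, inv_mul_cancel₀ hX, one_pow]

lemma not_inv_pow_mem {n : ℕ} (hn : (tt σ K M ^ n)⁻¹ ∈ degVS σ K M) : n = 0 := by
  have h : tt σ K M ^ 0 * algebraMap _ M ((X (Classical.arbitrary σ)) ^ n : MvPolynomial σ K) ∈ degVS σ K M := by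
    rw [map_pow]
    rw [tt, ← inv_pow, inv_inv] at hn
    simpa using hn
  have := totalDegree_le_of_mem σ K M h
  rw [totalDegree_X_pow] at this
  omega

omit [Nonempty σ] in
lemma degVS_isUnit {u : degVS σ K M} : IsUnit u ↔ (u : M) ≠ 0 ∧ (u : M)⁻¹ ∈ degVS σ K M := by
  constructor
  · rintro ⟨v, rfl⟩
    have h1 : ((v : degVS σ K M) : M) * ((v⁻¹ : (degVS σ K M)ˣ) : degVS σ K M) = 1 := by
      have := v.mul_inv
      exact_mod_cast congrArg Subtype.val this
    refine ⟨left_ne_zero_of_mul_eq_one h1, ?_⟩
    rw [inv_eq_of_mul_eq_one_right h1]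
    exact ((v⁻¹ : (degVS σ K M)ˣ) : degVS σ K M).2
  · rintro ⟨h0, h⟩
    exact IsUnit.of_mul_eq_one ⟨_, h⟩ (Subtype.ext (mul_inv_cancel₀ h0))

/-- The uniformizer in the valuation ring. -/
noncomputable def ttO : degVS σ K M := ⟨tt σ K M, tt_mem σ K M⟩

lemma degVS_fac {x : degVS σ K M} (hx : x ≠ 0) : ∃ (n : ℕ) (u : (degVS σ K M)ˣ), x = ttO σ K M ^ n * u := by
  have hx' : (x : M) ≠ 0 := by simpa using hx
  obtain ⟨n, u, hu, hu', hxu⟩ := exists_tt_pow σ K M x.2 hx'
  have hu0 : u ≠ 0 := by
    rintro rfl
    simp at hxu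
    exact hx hxu
  obtain ⟨v, hv⟩ := (degVS_isUnit σ K M (u := ⟨u, hu⟩)).2 ⟨hu0, hu'⟩
  refine ⟨n, v, ?_⟩
  rw [hv]
  exact Subtype.ext hxu

lemma ttO_irreducible : Irreducible (ttO σ K M) := by
  constructor
  · intro h
    have := ((degVS_isUnit σ K M).1 h).2
    have h1 := not_inv_pow_mem σ K M (n := 1) (by rw [pow_one]; exact this)
    omega
  · intro a b hab
    have ha0 : a ≠ 0 := by
      rintro rfl
      rw [zero_mul] at hab
      exact tt_ne_zero σ K M (congrArg Subtype.val hab)
    have hb0 : b ≠ 0 := by
      rintro rfl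
      rw [mul_zero] at hab
      exact tt_ne_zero σ K M (congrArg Subtype.val hab)
    obtain ⟨n, u, rfl⟩ := degVS_fac σ K M ha0
    obtain ⟨m, v, rfl⟩ := degVS_fac σ K M hb0
    rcases n with _ | n
    · left; simp
    rcases m with _ | m
    · right; simp
    exfalso
    have h1 : tt σ K M = tt σ K M ^ (n + 1) * (u : degVS σ K M) * (tt σ K M ^ (m + 1) * (v : degVS σ K M)) := by
      exact congrArg Subtype.val hab
    have ht := tt_ne_zero σ K M
    have hu : (((u * v : (degVS σ K M)ˣ) : degVS σ K M) : M) * tt σ K M ^ (n + m + 1) = 1 := by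
      have : tt σ K M * 1 = tt σ K M * ((((u * v : (degVS σ K M)ˣ) : degVS σ K M) : M) * tt σ K M ^ (n + m + 1)) := by
        rw [mul_one]
        conv_lhs => rw [h1]
        push_cast
        ring
      exact (mul_left_cancel₀ ht this).symm
    have h2 : (tt σ K M ^ (n + m + 1))⁻¹ ∈ degVS σ K M := by
      rw [inv_eq_of_mul_eq_one_left hu]
      exact ((u * v : (degVS σ K M)ˣ) : degVS σ K M).2
    have := not_inv_pow_mem σ K M h2
    omega

instance degVS_dvr : IsDiscreteValuationRing (degVS σ K M) := by
  apply IsDiscreteValuationRing.ofHasUnitMulPowIrreducibleFactorization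
  refine ⟨ttO σ K M, ttO_irreducible σ K M, ?_⟩
  intro x hx
  obtain ⟨n, u, rfl⟩ := degVS_fac σ K M hx
  exact ⟨n, (associated_mul_unit_right _ _ u.isUnit)⟩

end degVS

lemma totalDegree_pderiv_le {σ K : Type*} [Field K] (i : σ) (f : MvPolynomial σ K) :
    (pderiv i f).totalDegree ≤ f.totalDegree := by
  classical
  conv_lhs => rw [f.as_sum]
  rw [map_sum]
  refine (totalDegree_finsetSum _ _).trans (Finset.sup_le fun m hm => ?_)
  rw [pderiv_monomial]
  refine (totalDegree_monomial_le _ _).trans ?_
  refine le_trans ?_ (le_totalDegree hm)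
  rw [Finsupp.sum_of_support_subset (m - Finsupp.single i 1) (s := m.support) ?_ _ (by simp)]
  · rw [Finsupp.sum]
    refine Finset.sum_le_sum fun j _ => ?_
    simp [Finsupp.tsub_apply]
  · intro j hj
    rw [Finsupp.mem_support_iff] at hj ⊢
    intro h
    apply hj
    simp [Finsupp.tsub_apply, h]

lemma derivation_expand {K L : Type*} {n : ℕ} [Field K] [Field L] [Algebra K L] [Algebra (MvPolynomial (Fin n) K) L]
    [IsScalarTower K (MvPolynomial (Fin n) K) L] (D : Derivation K L L) (p : MvPolynomial (Fin n) K) :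
    D (algebraMap _ L p) = ∑ j, algebraMap _ L (pderiv j p) * D (algebraMap (MvPolynomial (Fin n) K) L (X j)) := by
  classical
  let E : Derivation K (MvPolynomial (Fin n) K) L :=
    ∑ j, (LinearMap.toSpanSingleton (MvPolynomial (Fin n) K) L
      (D (algebraMap (MvPolynomial (Fin n) K) L (X j)))).compDer (pderiv j)
  have hE : ∀ q, E q = ∑ j, algebraMap _ L (pderiv j q) * D (algebraMap (MvPolynomial (Fin n) K) L (X j)) := by
    intro q
    have : E q = ∑ j, ((LinearMap.toSpanSingleton (MvPolynomial (Fin n) K) L
      (D (algebraMap (MvPolynomial (Fin n) K) L (X j)))).compDer (pderiv j)) q := by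
      rw [← Derivation.coeFnAddMonoidHom_apply, map_sum, Finset.sum_apply]
      rfl
    rw [this]
    refine Finset.sum_congr rfl fun j _ => ?_
    rw [← Algebra.smul_def]
    rfl
  have h : D.compAlgebraMap (MvPolynomial (Fin n) K) = E := by
    apply MvPolynomial.derivation_ext
    intro i
    rw [hE]
    rw [Finset.sum_eq_single i]
    · simp
    · intro j _ hj
      rw [pderiv_X_of_ne hj.symm]
      simp
    · simp
  rw [← hE, ← h]
  rfl

end deg

section pole

variable (O M L : Type*) [CommRing O] [IsDomain O] [IsDiscreteValuationRing O] [Field M] [Algebra O M]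
  [IsFractionRing O M] [Field L] [Algebra M L] [Algebra O L] [IsScalarTower O M L] [FiniteDimensional M L]
  [CharZero M]

include M in
lemma integralClosure_pid : IsPrincipalIdealRing (integralClosure O L) := by
  have hD : IsDedekindDomain (integralClosure O L) := integralClosure.isDedekindDomain O M L
  have htf : Module.IsTorsionFree O (integralClosure O L) := by
    rw [Module.isTorsionFree_iff_algebraMap_injective]
    intro a b hab
    have h1 : algebraMap O L a = algebraMap O L b := by
      have := congrArg (algebraMap (integralClosure O L) L) hab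
      rwa [← IsScalarTower.algebraMap_apply, ← IsScalarTower.algebraMap_apply] at this
    rw [IsScalarTower.algebraMap_apply O M L, IsScalarTower.algebraMap_apply O M L] at h1
    exact IsFractionRing.injective O M ((algebraMap M L).injective h1)
  apply IsPrincipalIdealRing.of_finite_maximals
  have hint : Algebra.IsIntegral O (integralClosure O L) := inferInstance
  have hfin := IsDedekindDomain.primesOver_finite (IsLocalRing.maximalIdeal O) (integralClosure O L)
  refine hfin.subset ?_
  intro I hI
  have hI' : I.IsMaximal := hI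
  refine ⟨hI'.isPrime, ⟨?_⟩⟩
  have h1 : (I.under O).IsMaximal := Ideal.isMaximal_comap_of_isIntegral_of_isMaximal I
  exact (IsLocalRing.eq_maximalIdeal h1).symm

include M in
lemma exists_pow_smul_integral (t : O) (ht : Irreducible t) (x : L) : ∃ c : ℕ, IsIntegral O (t ^ c • x) := by
  have h1 : Algebra.IsAlgebraic O L := by
    have := IsLocalization.isAlgebraic M (nonZeroDivisors O)
    exact Algebra.IsAlgebraic.trans O M L
  obtain ⟨y, hy, hyx⟩ := (h1.isAlgebraic x).exists_integral_multiple
  obtain ⟨n, u, rfl⟩ := IsDiscreteValuationRing.eq_unit_mul_pow_irreducible hy ht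
  refine ⟨n, ?_⟩
  have : t ^ n • x = ((u⁻¹ : Oˣ) : O) • ((u * t ^ n) • x) := by
    rw [smul_smul, ← mul_assoc, Units.inv_mul, one_mul]
  rw [this]
  exact hyx.smul _

omit [IsDomain O] [IsDiscreteValuationRing O] in
variable {O L} in
lemma integral_mono {t : O} {x : L} {c c' : ℕ} (h : c ≤ c') (hx : IsIntegral O (t ^ c • x)) : IsIntegral O (t ^ c' • x) := by
  obtain ⟨k, rfl⟩ := Nat.exists_eq_add_of_le h
  rw [pow_add, mul_comm, mul_smul]
  exact hx.smul _

include M in
theorem exists_pole_bound (t : O) (ht : Irreducible t) {K : Type*} [CommRing K] [Algebra K L]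
    (D : Derivation K L L) (T : Set L) (hT : T.Finite)
    (hD : ∀ h : O, D (algebraMap O L h) ∈ Submodule.span O T) :
    ∃ c : ℕ, ∀ η : L, η ≠ 0 → IsIntegral O (t ^ c • (D η / η)) := by
  classical
  -- uniform bound on finite sets
  have hunif : ∀ T : Set L, T.Finite → ∃ c : ℕ, ∀ x ∈ T, IsIntegral O (t ^ c • x) := by
    intro T hT
    induction T, hT using Set.Finite.induction_on with
    | empty => exact ⟨0, by simp⟩
    | insert _ _ ih =>
      obtain ⟨c, hc⟩ := ih
      rename_i a s _ _
      obtain ⟨c', hc'⟩ := exists_pow_smul_integral O M L t ht a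
      refine ⟨max c c', ?_⟩
      rintro x (rfl | hx)
      · exact integral_mono (le_max_right _ _) hc'
      · exact integral_mono (le_max_left _ _) (hc x hx)
  have hfin : Module.Finite O (integralClosure O L) := IsIntegralClosure.finite O M L (integralClosure O L)
  obtain ⟨B, hB⟩ := hfin.fg_top
  obtain ⟨c₁, hc₁⟩ := hunif T hT
  obtain ⟨c₂, hc₂⟩ := hunif ((fun b : integralClosure O L => D (b : L)) '' (B : Set (integralClosure O L)))
    (B.finite_toSet.image _)
  set c := max c₁ c₂ with hcdef
  have hO : ∀ h : O, IsIntegral O (t ^ c • D (algebraMap O L h)) := by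
    intro h
    have hmem : D (algebraMap O L h) ∈ Submodule.span O T := hD h
    refine Submodule.span_induction (p := fun x _ => IsIntegral O (t ^ c • x)) ?_ ?_ ?_ ?_ hmem
    · intro x hx; exact integral_mono (le_max_left _ _) (hc₁ x hx)
    · simpa using isIntegral_zero
    · intro x y _ _ hx hy; rw [smul_add]; exact hx.add hy
    · intro a x _ hx; rw [smul_comm]; exact hx.smul a
  have hS : ∀ s : integralClosure O L, IsIntegral O (t ^ c • D (s : L)) := by
    intro s
    have hmem : s ∈ Submodule.span O (B : Set (integralClosure O L)) := by rw [hB]; trivial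
    refine Submodule.span_induction (p := fun x _ => IsIntegral O (t ^ c • D ((x : integralClosure O L) : L))) ?_ ?_ ?_ ?_ hmem
    · intro x hx; exact integral_mono (le_max_right _ _) (hc₂ _ ⟨x, hx, rfl⟩)
    · simpa using isIntegral_zero
    · intro x y _ _ hx hy
      have : D (((x + y : integralClosure O L)) : L) = D (x : L) + D (y : L) := by
        rw [← map_add]; rfl
      rw [this, smul_add]; exact hx.add hy
    · intro a x _ hx
      have : D (((a • x : integralClosure O L)) : L) = a • D (x : L) + (x : L) * D (algebraMap O L a) := by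
        have h1 : ((a • x : integralClosure O L) : L) = algebraMap O L a * (x : L) := by
          rw [← Algebra.smul_def]; rfl
        rw [h1, Derivation.leibniz, smul_eq_mul, smul_eq_mul, Algebra.smul_def]
      rw [this, smul_add, smul_comm, ← mul_smul_comm]
      exact (hx.smul a).add (x.2.mul (hO a))
  -- PID structure
  have hdom : IsDomain (integralClosure O L) := inferInstance
  have hpid : IsPrincipalIdealRing (integralClosure O L) := integralClosure_pid O M L
  have hinjS : Function.Injective (algebraMap (integralClosure O L) L) := Subtype.val_injective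
  have hprime : ∀ p : integralClosure O L, Prime p → p ∣ algebraMap O (integralClosure O L) t := by
    intro p hp
    have halg : IsAlgebraic O p := (Algebra.IsIntegral.isIntegral p).isAlgebraic
    obtain ⟨r, hr, hpr⟩ := halg.exists_nonzero_dvd (mem_nonZeroDivisors_of_ne_zero hp.ne_zero)
    obtain ⟨n, u, rfl⟩ := IsDiscreteValuationRing.eq_unit_mul_pow_irreducible hr ht
    rw [map_mul, map_pow] at hpr
    rcases hp.dvd_or_dvd hpr with h | h
    · exfalso
      exact hp.not_isUnit (isUnit_of_dvd_unit h (u.isUnit.map _))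
    · exact hp.dvd_of_dvd_pow h
  have key : ∀ s : integralClosure O L, s ≠ 0 → IsIntegral O (t ^ (c + 1) • (D (s : L) / (s : L))) := by
    intro s
    induction s using UniqueFactorizationMonoid.induction_on_prime with
    | h₁ => intro h; exact absurd rfl h
    | h₂ u hu =>
      intro _
      obtain ⟨v, rfl⟩ := hu
      have h1 : ((v : integralClosure O L) : L) * (((v⁻¹ : (integralClosure O L)ˣ) : integralClosure O L) : L) = 1 := by
        have := v.mul_inv
        exact_mod_cast congrArg Subtype.val this
      rw [div_eq_mul_inv, inv_eq_of_mul_eq_one_right h1, ← smul_mul_assoc]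
      exact (integral_mono (Nat.le_succ c) (hS _)).mul (Subtype.property _)
    | h₃ a p ha hp ih =>
      intro _
      have ha' : (a : L) ≠ 0 := by simpa using ha
      have hp' : (p : L) ≠ 0 := by simpa using hp.ne_zero
      have e1 : D (((p * a : integralClosure O L)) : L) / ((p * a : integralClosure O L) : L)
        = D (p : L) / (p : L) + D (a : L) / (a : L) := by
        have : ((p * a : integralClosure O L) : L) = (p : L) * (a : L) := rfl
        rw [this, Derivation.leibniz]
        simp only [smul_eq_mul]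
        field_simp
        ring
      rw [e1, smul_add]
      refine IsIntegral.add ?_ (ih ha)
      obtain ⟨q, hq⟩ := hprime p hp
      have hq' : algebraMap O L t = (p : L) * (q : L) := by
        have := congrArg (algebraMap (integralClosure O L) L) hq
        rw [← IsScalarTower.algebraMap_apply] at this
        exact this
      have e2 : t ^ (c + 1) • (D (p : L) / (p : L)) = (q : L) * (t ^ c • D (p : L)) := by
        rw [pow_succ, mul_smul, Algebra.smul_def t, hq', mul_smul_comm]
        congr 1
        field_simp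
      rw [e2]
      exact q.2.mul (hS p)
  refine ⟨c + 1, fun η hη => ?_⟩
  have hfrac : IsFractionRing (integralClosure O L) L :=
    IsIntegralClosure.isFractionRing_of_finite_extension O M L (integralClosure O L)
  obtain ⟨a, b, hb, rfl⟩ := IsFractionRing.div_surjective (A := integralClosure O L) η
  have hb0 : b ≠ 0 := nonZeroDivisors.ne_zero hb
  have ha0 : a ≠ 0 := by
    rintro rfl
    simp at hη
  have hb' : (b : L) ≠ 0 := by simpa using hb0
  have ha' : (a : L) ≠ 0 := by simpa using ha0
  have e3 : D (algebraMap (integralClosure O L) L a / algebraMap (integralClosure O L) L b) /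
    (algebraMap (integralClosure O L) L a / algebraMap (integralClosure O L) L b)
     = D (a : L) / (a : L) - D (b : L) / (b : L) := by
    change D ((a : L) / (b : L)) / ((a : L) / (b : L)) = _
    rw [Derivation.leibniz_div]
    simp only [smul_eq_mul]
    field_simp
  rw [e3, smul_sub]
  exact (key a ha0).sub (key b hb0)

end pole

end Pool.Agent.Lib.LogDer
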