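import Pool.Agent.Lib.MP_26f537_al.LogDer

set_option autoImplicit false
open Module

namespace Pool.Agent.Lib.LogDer

open MvPolynomial in
lemma degVS_derivation {K L M : Type*} {n : ℕ} [Field K] [Field L] [Field M] [Algebra K L]
    [Algebra (MvPolynomial (Fin n) K) L] [Algebra (MvPolynomial (Fin n) K) M] [IsFractionRing (MvPolynomial (Fin n) K) M]
    [Algebra M L] [IsScalarTower (MvPolynomial (Fin n) K) M L]
    [IsScalarTower K (MvPolynomial (Fin n) K) L] [Algebra (degVS (Fin n) K M) L] [IsScalarTower (degVS (Fin n) K M) M L]
    (D : Derivation K L L) (h : degVS (Fin n) K M) :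
    D (algebraMap _ L h) ∈ Submodule.span (degVS (Fin n) K M)
      (Set.range fun j => D (algebraMap (MvPolynomial (Fin n) K) L (X j))) := by
  obtain ⟨x, f, g, hg, hd, rfl⟩ := h
  have hg' : algebraMap (MvPolynomial (Fin n) K) L g ≠ 0 := by
    rw [IsScalarTower.algebraMap_apply (MvPolynomial (Fin n) K) M L]
    intro h
    exact algebraMap_ne_zero' (Fin n) K M hg ((algebraMap M L).injective (h.trans (map_zero _).symm))
  have hcoef : ∀ j, (algebraMap _ M (pderiv j f * g - f * pderiv j g) / algebraMap _ M (g ^ 2) : M) ∈ degVS (Fin n) K M := by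
    intro j
    refine ⟨_, _, pow_ne_zero 2 hg, ?_, rfl⟩
    rw [pow_two, totalDegree_mul_of_isDomain hg hg]
    refine (totalDegree_sub _ _).trans (max_le ?_ ?_)
    · exact (totalDegree_mul _ _).trans (add_le_add ((totalDegree_pderiv_le _ _).trans hd) le_rfl)
    · exact (totalDegree_mul _ _).trans (add_le_add hd (totalDegree_pderiv_le _ _))
  have e1 : algebraMap (degVS (Fin n) K M) L ⟨_, f, g, hg, hd, rfl⟩ = algebraMap _ L f / algebraMap _ L g := by
    rw [IsScalarTower.algebraMap_apply (degVS (Fin n) K M) M L]
    change algebraMap M L (algebraMap _ M f / algebraMap _ M g) = _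
    rw [map_div₀, ← IsScalarTower.algebraMap_apply, ← IsScalarTower.algebraMap_apply]
  have e2 : D (algebraMap _ L f / algebraMap _ L g) = ∑ j, (⟨_, hcoef j⟩ : degVS (Fin n) K M) • D (algebraMap (MvPolynomial (Fin n) K) L (X j)) := by
    have e3 : ∀ j, (⟨_, hcoef j⟩ : degVS (Fin n) K M) • D (algebraMap (MvPolynomial (Fin n) K) L (X j))
        = (algebraMap _ L (pderiv j f) * algebraMap _ L g - algebraMap _ L f * algebraMap _ L (pderiv j g)) / (algebraMap _ L g) ^ 2 * 
          D (algebraMap (MvPolynomial (Fin n) K) L (X j)) := by
      intro j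
      rw [Algebra.smul_def, IsScalarTower.algebraMap_apply (degVS (Fin n) K M) M L]
      change algebraMap M L (algebraMap _ M (pderiv j f * g - f * pderiv j g) / algebraMap _ M (g ^ 2)) * _ = _
      rw [map_div₀, ← IsScalarTower.algebraMap_apply, ← IsScalarTower.algebraMap_apply, map_sub, map_mul, map_mul, map_pow]
    rw [Finset.sum_congr rfl fun j _ => e3 j, Derivation.leibniz_div, derivation_expand D f, derivation_expand D g]
    simp only [smul_eq_mul, Finset.mul_sum, ← Finset.sum_sub_distrib]
    refine Finset.sum_congr rfl fun j _ => ?_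
    field_simp
  rw [e1, e2]
  exact Submodule.sum_mem _ fun j _ => Submodule.smul_mem _ _ (Submodule.subset_span ⟨j, rfl⟩)

theorem exists_fg_bound {K R L : Type*} [Field K] [CharZero K] [CommRing R] [IsDomain R] [Algebra K R] [Algebra.FiniteType K R]
    [Field L] [Algebra R L] [IsFractionRing R L] [Algebra K L] [IsScalarTower K R L] (D : Derivation K L L) :
    ∃ W : Submodule K L, W.FG ∧ ∀ η : L, η ≠ 0 → D η / η ∈ Set.range (algebraMap R L) → D η / η ∈ W := by
  classical
  obtain ⟨n, g, hginj, hgfin⟩ := exists_finite_inj_algHom_of_fg K R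
  let P := MvPolynomial (Fin n) K
  let _ : Algebra P R := g.toAlgebra
  have : IsScalarTower K P R := IsScalarTower.of_algebraMap_eq fun c => (g.commutes c).symm
  have hPRfin : Module.Finite P R := hgfin
  rcases n with _ | n
  · -- trivial case
    refine ⟨LinearMap.range (IsScalarTower.toAlgHom K R L).toLinearMap, ?_, ?_⟩
    · have : Module.Finite K P :=
        Module.Finite.equiv (MvPolynomial.isEmptyAlgEquiv K (Fin 0)).symm.toLinearEquiv
      have : Module.Finite K R := Module.Finite.trans P R
      rw [LinearMap.range_eq_map]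
      exact (Module.Finite.fg_top).map _
    · rintro η _ ⟨r, hr⟩
      exact ⟨r, hr⟩
  let _ : Algebra P L := ((algebraMap R L).comp (algebraMap P R)).toAlgebra
  have : IsScalarTower P R L := IsScalarTower.of_algebraMap_eq fun _ => rfl
  have : IsScalarTower K P L := IsScalarTower.of_algebraMap_eq fun c => by
    rw [IsScalarTower.algebraMap_apply P R L, ← IsScalarTower.algebraMap_apply K P R, ← IsScalarTower.algebraMap_apply K R L]
  have hPLinj : Function.Injective (algebraMap P L) := by
    change Function.Injective ((algebraMap R L).comp (algebraMap P R))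
    exact (IsFractionRing.injective R L).comp hginj
  have : FaithfulSMul P L := (faithfulSMul_iff_algebraMap_injective P L).2 hPLinj
  let M := FractionRing P
  let _ : Algebra M L := FractionRing.liftAlgebra P L
  have : IsScalarTower P M L := FractionRing.isScalarTower_liftAlgebra P L
  have : IsScalarTower K M L := IsScalarTower.of_algebraMap_eq fun c => by
    rw [IsScalarTower.algebraMap_apply K P M, ← IsScalarTower.algebraMap_apply P M L,
      ← IsScalarTower.algebraMap_apply K P L]
  have hKL : Algebra.EssFiniteType K L := by
    have : Algebra.EssFiniteType R L := Algebra.EssFiniteType.of_isLocalization _ (nonZeroDivisors R)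
    exact Algebra.EssFiniteType.comp K R L
  have : Algebra.EssFiniteType M L := Algebra.EssFiniteType.of_comp K M L
  have hRint : Algebra.IsIntegral P R := inferInstance
  have hPL : Algebra.IsAlgebraic P L := by
    have : Algebra.IsAlgebraic R L := IsLocalization.isAlgebraic L (nonZeroDivisors R)
    have : Algebra.IsAlgebraic P R := inferInstance
    exact Algebra.IsAlgebraic.trans P R L
  have hML : Algebra.IsAlgebraic M L := IsFractionRing.comap_isAlgebraic_iff.1 hPL
  have : FiniteDimensional M L := Algebra.finite_of_essFiniteType_of_isAlgebraic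
  have hCM : CharZero M := charZero_of_injective_algebraMap (algebraMap K M).injective
  let O := degVS (Fin (n+1)) K M
  let _ : Algebra O L := ((algebraMap M L).comp (algebraMap O M)).toAlgebra
  have : IsScalarTower O M L := IsScalarTower.of_algebraMap_eq fun _ => rfl
  obtain ⟨c, hc⟩ := exists_pole_bound O M L (ttO (Fin (n+1)) K M) (ttO_irreducible (Fin (n+1)) K M) D _ (Set.finite_range _)
    (degVS_derivation (M := M) D)
  obtain ⟨s, b, hb⟩ := FiniteDimensional.exists_is_basis_integral P M L
  have hunif : ∃ c : ℕ, ∀ i, IsIntegral O ((ttO (Fin (n+1)) K M) ^ c • b i) := by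
    choose ci hci using fun i => exists_pow_smul_integral O M L (ttO (Fin (n+1)) K M) (ttO_irreducible (Fin (n+1)) K M) (b i)
    exact ⟨Finset.univ.sup ci, fun i => integral_mono (Finset.le_sup (Finset.mem_univ i)) (hci i)⟩
  obtain ⟨c', hc'⟩ := hunif
  let Φ : L →ₗ[K] (s → M) :=
    { toFun := fun x i => Algebra.trace M L (x * b i)
      map_add' := by intro x y; ext i; simp [add_mul]
      map_smul' := by
        intro k x; ext i
        simp only [RingHom.id_apply, Pi.smul_apply, smul_mul_assoc]
        rw [← algebraMap_smul M k (x * b i), map_smul, algebraMap_smul] }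
  have hΦ : Function.Injective Φ := by
    rw [injective_iff_map_eq_zero]
    intro x hx
    have h1 : ∀ y, Algebra.traceForm M L x y = 0 := by
      intro y
      have : Algebra.traceForm M L x = 0 := by
        apply b.ext
        intro i
        have := congrFun hx i
        simpa [Φ] using this
      rw [this]; rfl
    exact (traceForm_nondegenerate M L).1 x h1
  -- the finite dimensional target
  let m := c + c'
  let N₀ : Submodule K M := (MvPolynomial.restrictTotalDegree (Fin (n+1)) K m).map (IsScalarTower.toAlgHom K P M).toLinearMap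
  have hN₀ : N₀.FG := (Module.Finite.iff_fg.1 inferInstance : (MvPolynomial.restrictTotalDegree (Fin (n+1)) K m).FG).map _
  let N : Submodule K (s → M) := Submodule.pi Set.univ fun _ => N₀
  have hN : N.FG := Submodule.fg_pi fun _ => hN₀
  refine ⟨N.comap Φ, ?_, ?_⟩
  · apply Submodule.fg_of_fg_map_injective Φ hΦ
    have : IsNoetherian K N := by
      have : Module.Finite K N := Module.Finite.iff_fg.2 hN
      exact isNoetherian_of_isNoetherianRing_of_finite K N
    have hle : Submodule.map Φ (N.comap Φ) ≤ N := Submodule.map_comap_le _ _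
    have h2 : Submodule.map Φ (N.comap Φ) = Submodule.map N.subtype (Submodule.comap N.subtype (Submodule.map Φ (N.comap Φ))) := by
      rw [Submodule.map_comap_subtype]
      exact (inf_eq_right.2 hle).symm
    rw [h2]
    exact (IsNoetherian.noetherian _).map _
  · intro η hη hr
    obtain ⟨r, hr⟩ := hr
    rw [Submodule.mem_comap]
    intro i _
    change Algebra.trace M L (D η / η * b i) ∈ N₀
    have hxint : IsIntegral P (D η / η) := by
      rw [← hr]
      exact (hRint.isIntegral r).algebraMap
    have h1 : IsIntegral P (Algebra.trace M L (D η / η * b i)) := Algebra.isIntegral_trace (hxint.mul (hb i))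
    obtain ⟨p, hp⟩ := IsIntegrallyClosed.isIntegral_iff.1 h1
    have h2 : IsIntegral O (((ttO (Fin (n+1)) K M) ^ c • (D η / η)) * ((ttO (Fin (n+1)) K M) ^ c' • b i)) := (hc η hη).mul (hc' i)
    have h3 : ((ttO (Fin (n+1)) K M) ^ c • (D η / η)) * ((ttO (Fin (n+1)) K M) ^ c' • b i)
      = (tt (Fin (n+1)) K M ^ m) • (D η / η * b i) := by
      rw [smul_mul_smul_comm, ← pow_add, Algebra.smul_def, Algebra.smul_def, IsScalarTower.algebraMap_apply O M L]
      rfl
    rw [h3] at h2
    have h4 := Algebra.isIntegral_trace (L := M) h2
    rw [map_smul, ← hp] at h4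
    obtain ⟨y, hy⟩ := IsIntegrallyClosed.isIntegral_iff.1 h4
    have h5 : tt (Fin (n+1)) K M ^ m * algebraMap P M p ∈ degVS (Fin (n+1)) K M := by
      rw [← smul_eq_mul, ← hy]
      exact y.2
    have h6 := totalDegree_le_of_mem (Fin (n+1)) K M h5
    refine ⟨p, ?_, hp⟩
    exact (MvPolynomial.mem_restrictTotalDegree _ _ _).2 h6


lemma aux_div {L : Type*} [Field L] {A B DA DB r : L} (hA : A ≠ 0) (hB : B ≠ 0)
    (h : DA * B - A * DB = r * A * B) : B⁻¹ ^ 2 * (B * DA - A * DB) / (A / B) = r := by
  field_simp
  linear_combination h

/-- Finite generation of the group of logarithmic derivatives lying in `R`. -/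
theorem logDer_fg (K R : Type*) [Field K] [CharZero K] [CommRing R] [IsDomain R] [Algebra K R]
    [Algebra.FiniteType K R] (δ : Derivation K R R) :
    (AddSubgroup.closure
      {r : R | ∃ a b : R, a ≠ 0 ∧ b ≠ 0 ∧ δ a * b - a * δ b = r * a * b}).FG := by
  classical
  let L := FractionRing R
  have hinj : Function.Injective (algebraMap R L) := IsFractionRing.injective R L
  have h1 : Algebra.FormallyEtale R L := Algebra.FormallyEtale.of_isLocalization (nonZeroDivisors R)
  obtain ⟨D, hD⟩ := exists_extend K R L δ
  -- field of constants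
  let F : IntermediateField K L :=
    { carrier := {x | D x = 0}
      mul_mem' := by
        intro a b ha hb
        change D (a * b) = 0
        rw [Derivation.leibniz, show D a = 0 from ha, show D b = 0 from hb]; simp
      add_mem' := by
        intro a b ha hb
        change D (a + b) = 0
        rw [map_add, show D a = 0 from ha, show D b = 0 from hb, add_zero]
      algebraMap_mem' := by
        intro c
        change D (algebraMap K L c) = 0
        simp
      inv_mem' := by
        intro a ha
        change D a⁻¹ = 0
        rw [Derivation.leibniz_inv, show D a = 0 from ha]; simp }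
  let DF : Derivation F L L := Derivation.mk'
    { toFun := D
      map_add' := by intros; simp
      map_smul' := by
        intro c x
        have hc : D (c : L) = 0 := c.2
        change D ((c : L) * x) = (c : L) * D x
        rw [Derivation.leibniz, hc]; simp } (by intro a b; exact D.leibniz a b)
  have hDF : ∀ x, DF x = D x := fun _ => rfl
  have hconst : ∀ x : L, DF x = 0 → x ∈ Set.range (algebraMap F L) := fun x hx => ⟨⟨x, hx⟩, rfl⟩
  have hKL : Algebra.EssFiniteType K L := by
    have : Algebra.EssFiniteType R L := Algebra.EssFiniteType.of_isLocalization _ (nonZeroDivisors R)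
    exact Algebra.EssFiniteType.comp K R L
  have hFL : Algebra.EssFiniteType F L := Algebra.EssFiniteType.of_comp K F L
  have hcF : CharZero F := charZero_of_injective_algebraMap (algebraMap K F).injective
  have hder : FiniteDimensional L (Derivation F L L) :=
    Module.Finite.equiv (KaehlerDifferential.linearMapEquivDerivation F L)
  obtain ⟨W, hW, hWmem⟩ := exists_fg_bound (R := R) D
  let W' : Submodule F L := Submodule.span F (W : Set L)
  have hW' : W'.FG := by
    obtain ⟨s, hs⟩ := hW
    refine ⟨s, ?_⟩
    apply le_antisymm
    · refine Submodule.span_mono ?_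
      rw [← hs]
      exact Submodule.subset_span
    · refine Submodule.span_le.2 ?_
      rw [← hs]
      intro x hx
      exact Submodule.span_le_restrictScalars K F (s : Set L) hx
  have key := dlogW_fg (resProp F L) DF hconst W' hW'
  have hfinZ : Module.Finite ℤ (dlogW DF W') :=
    Module.Finite.iff_addGroup_fg.2 ((AddGroup.fg_iff_addSubgroup_fg _).2 key)
  have hle : AddSubgroup.closure {r : R | ∃ a b : R, a ≠ 0 ∧ b ≠ 0 ∧ δ a * b - a * δ b = r * a * b} ≤
      (dlogW DF W').comap (algebraMap R L).toAddMonoidHom := by
    rw [AddSubgroup.closure_le]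
    rintro r ⟨a, b, ha, hb, hab⟩
    have ha' : algebraMap R L a ≠ 0 := fun h => ha (hinj (h.trans (map_zero _).symm))
    have hb' : algebraMap R L b ≠ 0 := fun h => hb (hinj (h.trans (map_zero _).symm))
    have e1 : D (algebraMap R L a / algebraMap R L b) / (algebraMap R L a / algebraMap R L b) = algebraMap R L r := by
      rw [Derivation.leibniz_div, hD, hD]
      have h2 := congrArg (algebraMap R L) hab
      simp only [map_sub, map_mul] at h2
      simp only [smul_eq_mul]
      exact aux_div ha' hb' h2
    have hη : algebraMap R L a / algebraMap R L b ≠ 0 := div_ne_zero ha' hb'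
    refine ⟨?_, algebraMap R L a / algebraMap R L b, hη, ?_⟩
    · change algebraMap R L r ∈ W'
      rw [← e1]
      exact Submodule.subset_span (hWmem _ hη ⟨r, e1.symm⟩)
    · rw [hDF]
      exact e1
  let j : AddSubgroup.closure {r : R | ∃ a b : R, a ≠ 0 ∧ b ≠ 0 ∧ δ a * b - a * δ b = r * a * b} →+ dlogW DF W' :=
    { toFun := fun r => ⟨algebraMap R L r, hle r.2⟩
      map_zero' := by ext; simp
      map_add' := by intros; ext; simp }
  have hj : Function.Injective j := by
    intro x y hxy
    exact Subtype.ext (hinj (congrArg Subtype.val hxy))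
  have : IsNoetherian ℤ (dlogW DF W') := isNoetherian_of_isNoetherianRing_of_finite ℤ _
  have hfin := Module.Finite.of_injective j.toIntLinearMap hj
  exact (AddGroup.fg_iff_addSubgroup_fg _).1 (Module.Finite.iff_addGroup_fg.1 hfin)

end Pool.Agent.Lib.LogDer
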